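import Mathlib

/-!
Project LP (helper86): for every large prime `p` a positive proportion of the numbers `2kp+1`, `k < 2(p+1)`, has a
prime factor larger than `p^(1+δ)`, `δ < √(3/2) - 1`.
-/

set_option autoImplicit false

namespace Pool.Agent.K3h86.LP

open Finset

/-- the pairs `(m, l)`, `a < m ≤ b`, `2p < l ≤ L`, `l` prime, `m l ≡ 1 (mod 2p)` -/
def Pr (p a b L : ℕ) : Finset (ℕ × ℕ) :=
  ((Ioc a b) ×ˢ (Ioc (2 * p) L)).filter (fun x => x.2.Prime ∧ x.1 * x.2 ≡ 1 [MOD 2 * p])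

/-- the multipliers -/
def KK (p : ℕ) : Finset ℕ := (Icc 1 (2 * p - 1)).erase p

open Classical in
/-- the multipliers `k` such that `2kp+1` has no prime factor larger than `p^(1+δ)` -/
noncomputable def Bd (p : ℕ) (δ : ℝ) : Finset ℕ :=
  (KK p).filter (fun k => ¬ ∃ l : ℕ, l.Prime ∧ l ∣ 2 * k * p + 1 ∧ (p : ℝ) ^ (1 + δ) < l)

/-- brick CHEB: Chebyshev's method -/
def CHEB : Prop := ∃ C : ℝ, 0 < C ∧ ∀ p : ℕ, p.Prime → 3 ≤ p →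
  2 * (p : ℝ) * Real.log p - C * p ≤
    ∑ k ∈ KK p, ∑ l ∈ (2 * k * p + 1).primeFactors.filter (fun l => 2 * p < l), Real.log l

/-- brick HYP: points on the modular hyperbola -/
def HYP : Prop := ∃ C : ℝ, 0 < C ∧ ∀ p : ℕ, p.Prime → 3 ≤ p → ∀ a b d L : ℕ, a ≤ b → b ≤ 2 * p → 1 ≤ d →
  d.Coprime (2 * p) →
  |((((Ioc a b) ×ˢ (Icc 1 L)).filter (fun x => d ∣ x.2 ∧ x.1 * x.2 ≡ 1 [MOD 2 * p])).card : ℝ) -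
      ((b : ℝ) - a) * L / (4 * p * d)| ≤
    C * Real.sqrt p * (Real.log p) ^ 2 * (1 + L / (p * d))

/-- brick SIEVE: Selberg's sieve on the hyperbola -/
def SIEVE : Prop := ∃ C : ℝ, 0 < C ∧ ∀ p : ℕ, p.Prime → 3 ≤ p → ∀ a b L D : ℕ, a ≤ b → b ≤ 2 * p →
  2 ≤ D → D ≤ 2 * p →
  ((Pr p a b L).card : ℝ) ≤ ((b : ℝ) - a) * L / (2 * ((p : ℝ) - 1) * Real.log D) +
    C * Real.sqrt p * (Real.log p) ^ 2 * ((D : ℝ) ^ 2 + (L / p) * (1 + Real.log D) ^ 3)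

/-- brick BLOCKS: splitting into blocks -/
def BLOCKS : Prop := ∀ (p : ℕ) (δ ρ : ℝ) (J : ℕ), p.Prime → 3 ≤ p → 0 < δ → 1 < ρ →
  2 * (p : ℝ) ^ δ ≤ ρ ^ J →
  ∑ k ∈ Bd p δ, ∑ l ∈ (2 * k * p + 1).primeFactors.filter (fun l => 2 * p < l), Real.log l ≤
  ∑ j ∈ range J, Real.log (2 * p * ρ ^ (j + 1)) *
      ((Pr p ⌊2 * (p : ℝ) / ρ ^ (j + 1)⌋₊ ⌊2 * (p : ℝ) / ρ ^ j⌋₊ ⌊2 * (p : ℝ) * ρ ^ (j + 1)⌋₊).card : ℝ) +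
    (1 + δ) * Real.log p * ((Pr p 0 ⌊2 * (p : ℝ) / ρ ^ J⌋₊ ⌊(p : ℝ) ^ (1 + δ)⌋₊).card : ℝ)

/-- brick ASY: the final numerical estimate -/
def ASY : Prop := ∀ (δ C : ℝ), 0 < δ → δ ^ 2 + 2 * δ < 1 / 2 → 0 < C →
  ∃ (ρ g : ℝ) (p₀ : ℕ), 1 < ρ ∧ 0 < g ∧ ∀ p : ℕ, p₀ ≤ p → ∃ J D : ℕ, 2 ≤ D ∧ D ≤ 2 * p ∧
    2 * (p : ℝ) ^ δ ≤ ρ ^ J ∧
    ∑ j ∈ range J, Real.log (2 * p * ρ ^ (j + 1)) *
        ((2 * (p : ℝ) / ρ ^ j - 2 * p / ρ ^ (j + 1) + 1) * (2 * p * ρ ^ (j + 1)) /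
            (2 * ((p : ℝ) - 1) * Real.log D) +
          C * Real.sqrt p * (Real.log p) ^ 2 * ((D : ℝ) ^ 2 + (2 * ρ ^ (j + 1)) * (1 + Real.log D) ^ 3)) +
      (1 + δ) * Real.log p *
        ((p : ℝ) ^ (1 - δ) * (p : ℝ) ^ (1 + δ) / (2 * ((p : ℝ) - 1) * Real.log D) +
          C * Real.sqrt p * (Real.log p) ^ 2 * ((D : ℝ) ^ 2 + (p : ℝ) ^ δ * (1 + Real.log D) ^ 3)) ≤
    (2 - g) * p * Real.log p

end Pool.Agent.K3h86.LP
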