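import Pool.Agent.K3h86.LP.Stm

set_option autoImplicit false

namespace Pool.Agent.K3h86.LP

open Finset

/-- for `k` in `KK p`, the weight is at most `log (4p²)` -/
theorem weight_le {p k : ℕ} (hp : 1 ≤ p) (hk : k ∈ KK p) :
    ∑ l ∈ (2 * k * p + 1).primeFactors.filter (fun l => 2 * p < l), Real.log l ≤
      Real.log (4 * (p : ℝ) ^ 2) := by
  have hN0 : 2 * k * p + 1 ≠ 0 := by omega
  have h1 : ∑ l ∈ (2 * k * p + 1).primeFactors.filter (fun l => 2 * p < l), Real.log l ≤
      ∑ l ∈ (2 * k * p + 1).primeFactors, Real.log l := by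
    apply sum_le_sum_of_subset_of_nonneg (filter_subset _ _)
    intro l _ _
    exact Real.log_natCast_nonneg l
  have h2 : ∑ l ∈ (2 * k * p + 1).primeFactors, Real.log l =
      Real.log (((∏ l ∈ (2 * k * p + 1).primeFactors, l : ℕ)) : ℝ) := by
    push_cast
    rw [Real.log_prod]
    intro l hl
    have := (Nat.prime_of_mem_primeFactors hl).pos
    exact_mod_cast this.ne'
  have h3 : (∏ l ∈ (2 * k * p + 1).primeFactors, l) ≤ 2 * k * p + 1 :=
    Nat.le_of_dvd (by omega) (Nat.prod_primeFactors_dvd _)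
  have hk' : 1 ≤ k ∧ k ≤ 2 * p - 1 := by
    unfold KK at hk
    have := mem_of_mem_erase hk
    rwa [mem_Icc] at this
  have h4 : 2 * k * p + 1 ≤ 4 * p ^ 2 := by
    have h5 : k + 1 ≤ 2 * p := by omega
    nlinarith
  have hpos : 0 < ∏ l ∈ (2 * k * p + 1).primeFactors, l :=
    prod_pos fun l hl => (Nat.prime_of_mem_primeFactors hl).pos
  calc _ ≤ _ := h1
    _ = _ := h2
    _ ≤ Real.log (4 * (p : ℝ) ^ 2) := by
      apply Real.log_le_log
      · exact_mod_cast hpos
      · exact_mod_cast h3.trans h4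

theorem main_pos (hcheb : CHEB) (hsieve : SIEVE) (hbl : BLOCKS) (hasy : ASY)
    (δ : ℝ) (hδ0 : 0 < δ) (hδ : δ ^ 2 + 2 * δ < 1 / 2) :
    ∃ c : ℝ, 0 < c ∧ ∃ p₀ : ℕ, ∀ p : ℕ, p.Prime → p₀ ≤ p →
      c * p ≤ ((KK p \ Bd p δ).card : ℝ) := by
  classical
  obtain ⟨C1, hC1, hcheb⟩ := hcheb
  obtain ⟨C, hC, hsieve⟩ := hsieve
  obtain ⟨ρ, g, p₀, hρ, hg, hasy⟩ := hasy δ C hδ0 hδ hC
  refine ⟨g / 8, by positivity, max (max p₀ 3) ⌈Real.exp (2 * C1 / g)⌉₊, fun p hp hpp => ?_⟩
  have hp3 : 3 ≤ p := le_trans (le_max_right _ _) (le_trans (le_max_left _ _) hpp)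
  have hp0 : p₀ ≤ p := le_trans (le_max_left _ _) (le_trans (le_max_left _ _) hpp)
  have hpe : Real.exp (2 * C1 / g) ≤ p := by
    have := le_trans (le_max_right _ _) hpp
    exact (Nat.le_ceil _).trans (by exact_mod_cast this)
  have hp3' : (3 : ℝ) ≤ p := by exact_mod_cast hp3
  have hppos : (0 : ℝ) < p := by linarith
  have hlog : 2 * C1 / g ≤ Real.log p := by
    rw [Real.le_log_iff_exp_le hppos]; exact hpe
  have hlog1 : 0 < Real.log p := Real.log_pos (by linarith)
  obtain ⟨J, D, hD, hD2, hJ, hfin⟩ := hasy p hp0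
  have hρ0 : 0 < ρ := by linarith
  set W : ℕ → ℝ := fun k => ∑ l ∈ (2 * k * p + 1).primeFactors.filter (fun l => 2 * p < l), Real.log l
    with hW
  have hW0 : ∀ k, 0 ≤ W k := fun k => sum_nonneg fun l _ => Real.log_natCast_nonneg l
  have hsubB : Bd p δ ⊆ KK p := by unfold Bd; exact filter_subset _ _
  have h1 := hcheb p hp hp3
  have h2 : ∑ k ∈ KK p, W k = ∑ k ∈ Bd p δ, W k + ∑ k ∈ KK p \ Bd p δ, W k := by
    rw [add_comm]; exact (sum_sdiff hsubB).symm
  have h3 : ∑ k ∈ KK p \ Bd p δ, W k ≤ ((KK p \ Bd p δ).card : ℝ) * (4 * Real.log p) := by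
    calc ∑ k ∈ KK p \ Bd p δ, W k ≤ ∑ k ∈ KK p \ Bd p δ, (4 * Real.log p) := by
          apply sum_le_sum
          intro k hk
          refine (weight_le (by omega) (mem_sdiff.1 hk).1).trans ?_
          have h5 : (4 : ℝ) * Real.log p = Real.log ((p : ℝ) ^ 4) := by
            rw [Real.log_pow]; norm_num
          rw [h5]
          apply Real.log_le_log (by positivity)
          have : (4 : ℝ) ≤ (p : ℝ) ^ 2 := by nlinarith
          calc 4 * (p : ℝ) ^ 2 ≤ (p : ℝ) ^ 2 * (p : ℝ) ^ 2 :=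
                mul_le_mul_of_nonneg_right this (by positivity)
            _ = _ := by ring
      _ = _ := by rw [sum_const, nsmul_eq_mul]
  have h4 : ∑ k ∈ Bd p δ, W k ≤ (2 - g) * p * Real.log p := by
    refine (hbl p δ ρ J hp hp3 hδ0 hρ hJ).trans (le_trans ?_ hfin)
    have hLp : ∀ x : ℝ, 0 ≤ x → ((⌊x⌋₊ : ℕ) : ℝ) ≤ x := fun x hx => Nat.floor_le hx
    have hlD : 0 < Real.log D := Real.log_pos (by exact_mod_cast (by omega : 1 < D))
    have hden : 0 < 2 * ((p : ℝ) - 1) * Real.log D := by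
      have : 0 < (p : ℝ) - 1 := by linarith
      positivity
    have hE : 0 ≤ C * Real.sqrt p * (Real.log p) ^ 2 := by positivity
    apply add_le_add
    · apply sum_le_sum
      intro j _
      have hρj : 1 ≤ ρ ^ j := one_le_pow₀ hρ.le
      have hρj1 : 1 ≤ ρ ^ (j + 1) := one_le_pow₀ hρ.le
      have hρj0 : 0 < ρ ^ j := by positivity
      have hρj10 : 0 < ρ ^ (j + 1) := by positivity
      have hlogn : 0 ≤ Real.log (2 * p * ρ ^ (j + 1)) := by
        apply Real.log_nonneg
        nlinarith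
      apply mul_le_mul_of_nonneg_left _ hlogn
      set a : ℕ := ⌊2 * (p : ℝ) / ρ ^ (j + 1)⌋₊ with ha
      set b : ℕ := ⌊2 * (p : ℝ) / ρ ^ j⌋₊ with hb
      set L : ℕ := ⌊2 * (p : ℝ) * ρ ^ (j + 1)⌋₊ with hL
      have hle : 2 * (p : ℝ) / ρ ^ (j + 1) ≤ 2 * (p : ℝ) / ρ ^ j := by
        apply div_le_div_of_nonneg_left (by positivity) hρj0
        exact pow_le_pow_right₀ hρ.le (Nat.le_succ j)
      have hab : a ≤ b := Nat.floor_mono hle
      have hb2 : b ≤ 2 * p := by
        have : (b : ℝ) ≤ 2 * p := by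
          refine (hLp _ (by positivity)).trans ?_
          exact div_le_self (by positivity) hρj
        exact_mod_cast this
      have hLr : (L : ℝ) ≤ 2 * p * ρ ^ (j + 1) := hLp _ (by positivity)
      have hbr : (b : ℝ) ≤ 2 * p / ρ ^ j := hLp _ (by positivity)
      have har : 2 * (p : ℝ) / ρ ^ (j + 1) - 1 ≤ a := by
        have := Nat.lt_floor_add_one (2 * (p : ℝ) / ρ ^ (j + 1))
        linarith
      refine (hsieve p hp hp3 a b L D hab hb2 hD hD2).trans ?_
      have hba : (0 : ℝ) ≤ (b : ℝ) - a := by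
        have : (a : ℝ) ≤ b := by exact_mod_cast hab
        linarith
      apply add_le_add
      · apply div_le_div_of_nonneg_right _ hden.le
        apply mul_le_mul (by linarith) hLr (by positivity) (by linarith)
      · apply mul_le_mul_of_nonneg_left _ hE
        have h6 : (L : ℝ) / p ≤ 2 * ρ ^ (j + 1) := by
          rw [div_le_iff₀ hppos]; linarith
        have h7 : 0 ≤ (1 + Real.log D) ^ 3 := by positivity
        have := mul_le_mul_of_nonneg_right h6 h7
        linarith
    · apply mul_le_mul_of_nonneg_left _ (by positivity)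
      set b : ℕ := ⌊2 * (p : ℝ) / ρ ^ J⌋₊ with hb
      set L : ℕ := ⌊(p : ℝ) ^ (1 + δ)⌋₊ with hL
      have hρJ : 1 ≤ ρ ^ J := one_le_pow₀ hρ.le
      have hρJ0 : 0 < ρ ^ J := by positivity
      have hb2 : b ≤ 2 * p := by
        have : (b : ℝ) ≤ 2 * p := by
          refine (hLp _ (by positivity)).trans ?_
          exact div_le_self (by positivity) hρJ
        exact_mod_cast this
      have hLr : (L : ℝ) ≤ (p : ℝ) ^ (1 + δ) := hLp _ (by positivity)
      have hbr : (b : ℝ) ≤ (p : ℝ) ^ (1 - δ) := by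
        refine (hLp _ (by positivity)).trans ?_
        rw [div_le_iff₀ hρJ0]
        have h6 : (p : ℝ) = (p : ℝ) ^ (1 - δ) * (p : ℝ) ^ δ := by
          rw [← Real.rpow_add hppos]; norm_num
        calc 2 * (p : ℝ) = (p : ℝ) ^ (1 - δ) * (2 * (p : ℝ) ^ δ) := by
              conv_lhs => rw [h6]
              ring
          _ ≤ (p : ℝ) ^ (1 - δ) * ρ ^ J := mul_le_mul_of_nonneg_left hJ (by positivity)
      refine (hsieve p hp hp3 0 b L D (Nat.zero_le _) hb2 hD hD2).trans ?_
      apply add_le_add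
      · apply div_le_div_of_nonneg_right _ hden.le
        push_cast
        rw [sub_zero]
        exact mul_le_mul hbr hLr (by positivity) (by positivity)
      · apply mul_le_mul_of_nonneg_left _ hE
        have h6 : (L : ℝ) / p ≤ (p : ℝ) ^ δ := by
          rw [div_le_iff₀ hppos]
          refine hLr.trans (le_of_eq ?_)
          rw [Real.rpow_add hppos, Real.rpow_one]; ring
        have h7 : 0 ≤ (1 + Real.log D) ^ 3 := by positivity
        have := mul_le_mul_of_nonneg_right h6 h7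
        linarith
  have h5 : 2 * (p : ℝ) * Real.log p - C1 * p ≤ (2 - g) * p * Real.log p +
      ((KK p \ Bd p δ).card : ℝ) * (4 * Real.log p) := by
    calc _ ≤ _ := h1
      _ = _ := h2
      _ ≤ _ := add_le_add h4 h3
  have h6 : C1 * p ≤ g / 2 * p * Real.log p := by
    have : C1 ≤ g / 2 * Real.log p := by
      rw [div_le_iff₀ hg] at hlog
      linarith
    nlinarith
  have h7 : g / 8 * p * (4 * Real.log p) ≤ ((KK p \ Bd p δ).card : ℝ) * (4 * Real.log p) := by
    nlinarith
  exact le_of_mul_le_mul_right h7 (by positivity)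

end Pool.Agent.K3h86.LP
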