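import Pool.Agent.K3h86.LP.Stm
import Pool.Agent.H376R2.TT.Selwq
import Pool.Agent.H376R2.MR.Sel

set_option autoImplicit false

namespace Pool.Agent.K3h86.LP

open Finset

theorem totient_two_mul {p : ℕ} (hp : p.Prime) (h3 : 3 ≤ p) : Nat.totient (2 * p) = p - 1 := by
  have hc : Nat.Coprime 2 p := (Nat.coprime_primes Nat.prime_two hp).2 (by omega)
  rw [Nat.totient_mul hc, Nat.totient_two, one_mul, Nat.totient_prime hp]

theorem sieve_of_hyp (h : HYP) : SIEVE := by
  classical
  obtain ⟨C, hC, h⟩ := h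
  refine ⟨C, hC, fun p hp h3 a b L D hab hb hD hD2 => ?_⟩
  obtain ⟨w, hw1, hwa, hwD, hw0, hwc, hq0, hq⟩ :=
    Pool.Agent.H376R2.TT.sel_weights_q (2 * p) (by omega) D hD
  set S : Finset (ℕ × ℕ) := ((Ioc a b) ×ˢ (Icc 1 L)).filter (fun x => x.1 * x.2 ≡ 1 [MOD 2 * p]) with hS
  have hp0 : (0 : ℝ) < p := by exact_mod_cast hp.pos
  have hp3 : (3 : ℝ) ≤ p := by exact_mod_cast h3
  set X : ℝ := ((b : ℝ) - a) * L / (4 * p) with hX
  set E : ℝ := C * Real.sqrt p * (Real.log p) ^ 2 with hE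
  have hE0 : 0 ≤ E := by positivity
  have hX0 : 0 ≤ X := by
    have : (a : ℝ) ≤ b := by exact_mod_cast hab
    rw [hX]; apply div_nonneg (mul_nonneg (by linarith) (by positivity)) (by positivity)
  -- step 1
  have h1 : ((Pr p a b L).card : ℝ) ≤ ∑ x ∈ S, (∑ d ∈ (Icc 1 D).filter (fun d => d ∣ x.2), w d) ^ 2 := by
    have hsub : Pr p a b L ⊆ S := by
      intro x hx
      unfold Pr at hx
      rw [mem_filter, mem_product, mem_Ioc, mem_Ioc] at hx
      rw [hS, mem_filter, mem_product, mem_Ioc, mem_Icc]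
      exact ⟨⟨hx.1.1, by omega, hx.1.2.2⟩, hx.2.2⟩
    calc ((Pr p a b L).card : ℝ) = ∑ x ∈ Pr p a b L, (1 : ℝ) := by simp
      _ ≤ ∑ x ∈ Pr p a b L, (∑ d ∈ (Icc 1 D).filter (fun d => d ∣ x.2), w d) ^ 2 := by
          apply sum_le_sum
          intro x hx
          unfold Pr at hx
          rw [mem_filter, mem_product, mem_Ioc, mem_Ioc] at hx
          have : (Icc 1 D).filter (fun d => d ∣ x.2) = {1} := by
            ext d
            rw [mem_filter, mem_Icc, mem_singleton]
            constructor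
            · rintro ⟨⟨h1, h2⟩, h3⟩
              rcases (Nat.dvd_prime hx.2.1).1 h3 with h4 | h4
              · exact h4
              · omega
            · rintro rfl
              exact ⟨⟨le_rfl, by omega⟩, one_dvd _⟩
          rw [this, sum_singleton, hw1]
          norm_num
      _ ≤ _ := sum_le_sum_of_subset_of_nonneg hsub (fun _ _ _ => sq_nonneg _)
  -- step 2
  have h2 : ∑ x ∈ S, (∑ d ∈ (Icc 1 D).filter (fun d => d ∣ x.2), w d) ^ 2 =
      ∑ d ∈ Icc 1 D, ∑ e ∈ Icc 1 D, w d * w e *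
        ((S.filter (fun x => Nat.lcm d e ∣ x.2)).card : ℝ) := by
    have e1 : ∀ x ∈ S, (∑ d ∈ (Icc 1 D).filter (fun d => d ∣ x.2), w d) ^ 2 =
        ∑ d ∈ Icc 1 D, ∑ e ∈ Icc 1 D, w d * w e * (if Nat.lcm d e ∣ x.2 then 1 else 0) := by
      intro x _
      rw [sq, sum_filter, sum_mul_sum]
      apply sum_congr rfl; intro d _
      apply sum_congr rfl; intro e _
      by_cases h1 : d ∣ x.2
      · by_cases h2 : e ∣ x.2
        · rw [if_pos h1, if_pos h2, if_pos (Nat.lcm_dvd h1 h2), mul_one]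
        · rw [if_neg h2, if_neg (fun h => h2 ((Nat.dvd_lcm_right d e).trans h)), mul_zero, mul_zero]
      · rw [if_neg h1, if_neg (fun h => h1 ((Nat.dvd_lcm_left d e).trans h)), zero_mul, mul_zero]
    rw [sum_congr rfl e1, sum_comm]
    apply sum_congr rfl; intro d _
    rw [sum_comm]
    apply sum_congr rfl; intro e _
    rw [← mul_sum, ← sum_filter, sum_const, nsmul_eq_mul, mul_one]
  -- step 3
  have h3' : ∀ d ∈ Icc 1 D, ∀ e ∈ Icc 1 D, w d * w e *
        ((S.filter (fun x => Nat.lcm d e ∣ x.2)).card : ℝ) ≤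
      X * (w d * w e / (Nat.lcm d e : ℝ)) + (E + E * (L / p) * (1 / (Nat.lcm d e : ℝ))) := by
    intro d hd e he
    rw [mem_Icc] at hd he
    have hl0 : 0 < Nat.lcm d e := Nat.lcm_pos (by omega) (by omega)
    have hl0' : (0 : ℝ) < Nat.lcm d e := by exact_mod_cast hl0
    have hr0 : 0 ≤ E + E * (L / p) * (1 / (Nat.lcm d e : ℝ)) := by positivity
    by_cases hc : d.Coprime (2 * p) ∧ e.Coprime (2 * p)
    · have hcop : (Nat.lcm d e).Coprime (2 * p) := by
        have h5 : (d * e).Coprime (2 * p) := Nat.Coprime.mul_left hc.1 hc.2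
        exact Nat.Coprime.coprime_dvd_left (Nat.lcm_dvd_mul d e) h5
      have h4 := h p hp h3 a b (Nat.lcm d e) L hab hb hl0 hcop
      have h5 : (((Ioc a b) ×ˢ (Icc 1 L)).filter
          (fun x => Nat.lcm d e ∣ x.2 ∧ x.1 * x.2 ≡ 1 [MOD 2 * p])) =
          S.filter (fun x => Nat.lcm d e ∣ x.2) := by
        rw [hS, filter_filter]
        apply filter_congr
        intro x _
        tauto
      rw [h5] at h4
      set c : ℝ := ((S.filter (fun x => Nat.lcm d e ∣ x.2)).card : ℝ) with hcdef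
      have hXl : ((b : ℝ) - a) * L / (4 * p * (Nat.lcm d e : ℕ)) = X / (Nat.lcm d e : ℝ) := by
        rw [hX, div_div]
      have hrl : C * Real.sqrt p * (Real.log p) ^ 2 * (1 + L / (p * (Nat.lcm d e : ℕ))) =
          E + E * (L / p) * (1 / (Nat.lcm d e : ℝ)) := by
        rw [hE]; field_simp
      rw [hXl, hrl] at h4
      have h6 : |w d * w e| ≤ 1 := by
        rw [abs_mul]
        exact mul_le_one₀ (hwa d) (abs_nonneg _) (hwa e)
      have h7 : w d * w e * (c - X / (Nat.lcm d e : ℝ)) ≤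
          E + E * (L / p) * (1 / (Nat.lcm d e : ℝ)) := by
        calc w d * w e * (c - X / (Nat.lcm d e : ℝ)) ≤ |w d * w e * (c - X / (Nat.lcm d e : ℝ))| :=
              le_abs_self _
          _ = |w d * w e| * |c - X / (Nat.lcm d e : ℝ)| := abs_mul _ _
          _ ≤ 1 * (E + E * (L / p) * (1 / (Nat.lcm d e : ℝ))) :=
              mul_le_mul h6 h4 (abs_nonneg _) zero_le_one
          _ = _ := one_mul _
      have h8 : w d * w e * c = X * (w d * w e / (Nat.lcm d e : ℝ)) +
          w d * w e * (c - X / (Nat.lcm d e : ℝ)) := by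
        field_simp; ring
      rw [h8]
      linarith
    · have hz : w d * w e = 0 := by
        rcases not_and_or.1 hc with h4 | h4
        · rw [hwc d h4, zero_mul]
        · rw [hwc e h4, mul_zero]
      rw [hz]
      simp only [zero_mul, zero_div, mul_zero, zero_add]
      exact hr0
  have hlogD : 0 < Real.log D := Real.log_pos (by exact_mod_cast (by omega : 1 < D))
  have hlcm := Pool.Agent.H376R2.MR.sel_aux_lcm D
  have htot : (Nat.totient (2 * p) : ℝ) = (p : ℝ) - 1 := by
    rw [totient_two_mul hp h3, Nat.cast_sub (by omega)]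
    norm_num
  calc ((Pr p a b L).card : ℝ) ≤ _ := h1
    _ = _ := h2
    _ ≤ ∑ d ∈ Icc 1 D, ∑ e ∈ Icc 1 D, (X * (w d * w e / (Nat.lcm d e : ℝ)) +
          (E + E * (L / p) * (1 / (Nat.lcm d e : ℝ)))) :=
        sum_le_sum fun d hd => sum_le_sum fun e he => h3' d hd e he
    _ = X * (∑ d ∈ Icc 1 D, ∑ e ∈ Icc 1 D, w d * w e / (Nat.lcm d e : ℝ)) + (D : ℝ) ^ 2 * E +
          E * (L / p) * (∑ d ∈ Icc 1 D, ∑ e ∈ Icc 1 D, 1 / (Nat.lcm d e : ℝ)) := by
        simp only [sum_add_distrib, mul_sum, sum_const, Nat.card_Icc, nsmul_eq_mul,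
          Nat.add_sub_cancel]
        ring
    _ ≤ X * ((((2 * p : ℕ) : ℝ) / Nat.totient (2 * p)) / Real.log D) + (D : ℝ) ^ 2 * E +
          E * (L / p) * (1 + Real.log D) ^ 3 := by
        have := mul_le_mul_of_nonneg_left hq hX0
        have h9 := mul_le_mul_of_nonneg_left hlcm (by positivity : 0 ≤ E * (L / p))
        linarith
    _ = _ := by
        rw [htot, hX, hE]
        have : (p : ℝ) - 1 ≠ 0 := by linarith
        push_cast
        field_simp
        ring

end Pool.Agent.K3h86.LP
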